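import Pool.Agent.Mg.Fe5b4ec.Ga63cc7

open Real Filter Topology

namespace Pool.Agent.Results.MP_e5b4ec_an.LargeM

theorem result :
    Tendsto (fun M : ℝ => M * (2 - Pool.Agent.MP_e5b4ec_an.c M)) atTop
      (𝓝 (4 * ∑' k : ℕ, (1 - Real.cos (2 * π / (3 * 2 ^ k))))) := by
  have h := Pool.Agent.MP_e5b4ec_an.tendsto_large
  unfold Pool.Agent.MP_e5b4ec_an.Winf Pool.Agent.MP_e5b4ec_an.w at h
  simp only [div_div] at h
  exact h

end Pool.Agent.Results.MP_e5b4ec_an.LargeM
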