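import Pool.Agent.MP_e5b4ec_an.Mid.TaC
import Pool.Agent.MP_e5b4ec_an.Mid.TbC

open Pool.Agent.MP_e5b4ec_an Pool.Agent.MP_e5b4ec_an.Mid

namespace Pool.Agent.Results.MP_e5b4ec_an.MidM

theorem result (M : ℝ) (h1 : 127 / 100 ≤ M) (h2 : M ≤ 141 / 100) :
    (∃ (p : ℕ → ℝ) (s : ℝ), Lin M s p ∧ Trig M p ∧ Tube M s p) ∧
      ∀ (p : ℕ → ℝ) (s : ℝ), Lin M s p → Trig M p → Tube M s p → c M = val M s p :=
  (le_total M (34 / 25)).elim (Tacover M h1) fun h => Tbcover M (by linarith) h2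

end Pool.Agent.Results.MP_e5b4ec_an.MidM
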