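import Pool.Agent.MP_e5b4ec_an.Sm.Fin

open Real Pool.Agent.MP_e5b4ec_an

namespace Pool.Agent.Results.MP_e5b4ec_an.SmallM

theorem result : ∃ θ κ : ℝ, 17 / 100 ≤ θ ∧ θ ≤ 171 / 1000 ∧
    cos (π / 6 + 2 * θ) + sin θ / 2 = 3 / 2 * sin (3 * θ) ∧
    κ = 2 / π * (1 / 2 + sin (π / 6 + 2 * θ) - cos θ + cos (3 * θ)) ∧
    ∀ M : ℝ, 1 ≤ M → κ * (M - 1) / M ≤ c M ∧ c M ≤ κ * (M - 1) * (1 + 13 * (M - 1)) := by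
  obtain ⟨θ, h1, h2, h3⟩ := Sm.main
  exact ⟨θ, Sm.kap θ, h1.1, h1.2, h2, rfl, h3⟩

end Pool.Agent.Results.MP_e5b4ec_an.SmallM
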