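import Pool.Agent.MP_e5b4ec_an.Na.Fin

open Pool.Agent.MP_e5b4ec_an

namespace Pool.Agent.Results.MP_e5b4ec_an.Transition

theorem result : ∃ M : ℝ, 100001 / 100000 ≤ M ∧ M ≤ 127 / 100 ∧ ¬ AnalyticAt ℝ c M := Na.main

end Pool.Agent.Results.MP_e5b4ec_an.Transition
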